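import Pool.Agent.Helper26.AF.Goals2

/-!
Project AF (MP_af6c86_pr), packet GRF: from pairings to graphs.
-/

set_option autoImplicit false

namespace Pool.Agent.Helper33.AF

open Pool.Agent.Helper26.AF

/-- darts -/
abbrev HH (r N : ℕ) : Type := KX r ⊕ Fin N × Bool

/-- vertices -/
abbrev VV (r N : ℕ) : Type := Fin (2 * r) ⊕ Fin N

/-- pairings without loops and double edges -/
structure Good {r N : ℕ} (τ : Equiv.Perm (HH r N)) : Prop where
  pair : IsPair τ
  np : NoPure τ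
  ns : ¬ Short τ

theorem sW_inr {X W : Type} (w : W) (b : Bool) :
    sW X W (Sum.inr (w, b)) = Sum.inr (w, !b) := by
  cases b <;> simp [sW]

section good

variable {r N : ℕ} {τ : Equiv.Perm (HH r N)}

theorem Good.inv (g : Good τ) (h : HH r N) : τ (τ h) = h := (g.pair h).1

theorem Good.nfix (g : Good τ) (h : HH r N) : τ h ≠ h := (g.pair h).2

theorem Good.s1 (g : Good τ) (x y : KX r) : τ (Sum.inl x) ≠ Sum.inl y := fun h =>
  g.ns ⟨x, Or.inl ⟨y, h⟩⟩

theorem Good.s2 (g : Good τ) {x y : KX r} {w : Fin N} {b : Bool}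
    (h1 : τ (Sum.inl x) = Sum.inr (w, b)) : τ (Sum.inr (w, !b)) ≠ Sum.inl y := fun h =>
  g.ns ⟨x, Or.inr ⟨y, by rw [h1, sW_inr, h]⟩⟩

theorem vt_eq_inl {h : HH r N} {v : Fin (2 * r)} (e : vt h = Sum.inl v) :
    ∃ i, h = Sum.inl (v, i) := by
  rcases h with ⟨a, i⟩ | ⟨w, b⟩
  · refine ⟨i, ?_⟩
    have : a = v := Sum.inl_injective e
    rw [this]
  · exact absurd e (by simp [vt])

theorem vt_eq_inr {h : HH r N} {w : Fin N} (e : vt h = Sum.inr w) :
    ∃ b, h = Sum.inr (w, b) := by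
  rcases h with ⟨a, i⟩ | ⟨w', b⟩
  · exact absurd e (by simp [vt])
  · refine ⟨b, ?_⟩
    have : w' = w := Sum.inr_injective e
    rw [this]

theorem bool_of_ne {a b : Bool} (h : a ≠ b) : a = !b := by
  cases a <;> cases b <;> simp_all

theorem Good.noloop (g : Good τ) (h : HH r N) : vt (τ h) ≠ vt h := by
  intro e
  rcases h with ⟨a, i⟩ | ⟨w, b⟩
  · obtain ⟨j, hj⟩ := vt_eq_inl (show vt (τ (Sum.inl (a, i))) = Sum.inl a from e)
    exact g.s1 _ _ hj
  · obtain ⟨b', hb⟩ := vt_eq_inr (show vt (τ (Sum.inr (w, b))) = Sum.inr w from e)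
    have hne : b' ≠ b := by
      rintro rfl
      exact g.nfix _ hb
    have hb' := bool_of_ne hne
    subst hb'
    obtain ⟨w0, hw0, b0, h0⟩ := g.np {w} ⟨w, rfl⟩
    rw [Set.mem_singleton_iff] at hw0
    subst hw0
    by_cases hbb : b0 = b
    · subst hbb
      exact h0 w0 rfl _ hb
    · have := bool_of_ne hbb
      subst this
      apply h0 w0 rfl b
      rw [← hb, g.inv]

theorem Good.inj (g : Good τ) {h h' : HH r N} (h1 : vt h = vt h') (h2 : vt (τ h) = vt (τ h')) :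
    h = h' := by
  by_contra hne
  have hne' : τ h ≠ τ h' := fun e => hne (τ.injective e)
  rcases h with ⟨a, i⟩ | ⟨w, b⟩
  · obtain ⟨i', rfl⟩ := vt_eq_inl (show vt h' = Sum.inl a from h1.symm)
    rcases hx : τ (Sum.inl (a, i)) with y | ⟨w, b⟩
    · exact g.s1 _ _ hx
    · rw [hx] at h2 hne'
      obtain ⟨b', hb'⟩ := vt_eq_inr (show vt (τ (Sum.inl (a, i'))) = Sum.inr w from h2.symm)
      have hbb : b' ≠ b := by
        rintro rfl
        exact hne' hb'.symm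
      have := bool_of_ne hbb
      subst this
      apply g.s2 hx (y := (a, i'))
      rw [← hb', g.inv]
  · obtain ⟨b', rfl⟩ := vt_eq_inr (show vt h' = Sum.inr w from h1.symm)
    have hbb : b' ≠ b := by
      rintro rfl
      exact hne rfl
    have := bool_of_ne hbb
    subst this
    rcases hx : τ (Sum.inr (w, b)) with y | ⟨u, c⟩
    · rw [hx] at h2
      obtain ⟨i', hi'⟩ := vt_eq_inl (show vt (τ (Sum.inr (w, !b))) = Sum.inl y.1 from h2.symm)
      have h3 : τ (Sum.inl y) = Sum.inr (w, b) := by rw [← hx, g.inv]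
      exact g.s2 h3 hi'
    · rw [hx] at h2 hne'
      obtain ⟨c', hc'⟩ := vt_eq_inr (show vt (τ (Sum.inr (w, !b))) = Sum.inr u from h2.symm)
      have hcc : c' ≠ c := by
        rintro rfl
        exact hne' hc'.symm
      have := bool_of_ne hcc
      subst this
      have e1 : τ (Sum.inr (u, c)) = Sum.inr (w, b) := by rw [← hx, g.inv]
      have e2 : τ (Sum.inr (u, !c)) = Sum.inr (w, !b) := by rw [← hc', g.inv]
      obtain ⟨w0, hw0, b0, h0⟩ := g.np {w, u} ⟨w, Or.inl rfl⟩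
      have hw : w ∈ ({w, u} : Set (Fin N)) := Or.inl rfl
      have hu : u ∈ ({w, u} : Set (Fin N)) := Or.inr rfl
      rcases hw0 with rfl | hw0
      · by_cases hb0 : b0 = b
        · subst hb0
          exact h0 u hu c hx
        · have := bool_of_ne hb0
          subst this
          exact h0 u hu (!c) hc'
      · rw [Set.mem_singleton_iff] at hw0
        subst hw0
        by_cases hb0 : b0 = c
        · subst hb0
          exact h0 w hw b e1
        · have := bool_of_ne hb0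
          subst this
          exact h0 w hw (!b) e2

/-- the graph of a pairing -/
def Gr (τ : Equiv.Perm (HH r N)) : SimpleGraph (VV r N) where
  Adj a b := a ≠ b ∧ ((∃ h, vt h = a ∧ vt (τ h) = b) ∨ ∃ h, vt h = b ∧ vt (τ h) = a)
  symm := ⟨fun _ _ h => ⟨h.1.symm, h.2.symm⟩⟩
  loopless := ⟨fun _ h => h.1 rfl⟩

theorem Good.adj (g : Good τ) (a b : VV r N) :
    (Gr τ).Adj a b ↔ ∃ h, vt h = a ∧ vt (τ h) = b := by
  constructor
  · rintro ⟨_, h | ⟨h, h1, h2⟩⟩
    · exact h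
    · exact ⟨τ h, h2, by rw [g.inv, h1]⟩
  · rintro ⟨h, h1, h2⟩
    refine ⟨?_, Or.inl ⟨h, h1, h2⟩⟩
    rw [← h1, ← h2]
    exact (g.noloop h).symm

/-- the dart of `Gr τ` given by `h` -/
def Good.dart (g : Good τ) (h : HH r N) : (Gr τ).Dart :=
  ⟨(vt h, vt (τ h)), (g.adj _ _).2 ⟨h, rfl, rfl⟩⟩

theorem Good.dart_bij (g : Good τ) : Function.Bijective g.dart := by
  constructor
  · intro h h' e
    have e1 : (vt h, vt (τ h)) = (vt h', vt (τ h')) := congrArg SimpleGraph.Dart.toProd e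
    exact g.inj (congrArg Prod.fst e1) (congrArg Prod.snd e1)
  · rintro ⟨⟨a, b⟩, hab⟩
    obtain ⟨h, rfl, rfl⟩ := (g.adj a b).1 hab
    exact ⟨h, rfl⟩

/-- darts of the graph -/
noncomputable def Good.E (g : Good τ) : HH r N ≃ (Gr τ).Dart := Equiv.ofBijective g.dart g.dart_bij

theorem Good.E_fst (g : Good τ) (h : HH r N) : (g.E h).fst = vt h := rfl

theorem Good.E_snd (g : Good τ) (h : HH r N) : (g.E h).snd = vt (τ h) := rfl

theorem Good.E_rev (g : Good τ) (h : HH r N) : g.E (τ h) = rev (Gr τ) (g.E h) := by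
  apply SimpleGraph.Dart.ext
  change (vt (τ h), vt (τ (τ h))) = (vt (τ h), vt h)
  rw [g.inv]

theorem card_fib_inl (v : Fin (2 * r)) : Nat.card {h : HH r N // vt h = Sum.inl v} = 3 := by
  have e : {h : HH r N // vt h = Sum.inl v} ≃ Fin 3 :=
    (Equiv.ofBijective (fun i : Fin 3 => (⟨Sum.inl (v, i), rfl⟩ : {h : HH r N // vt h = Sum.inl v}))
      ⟨by
        intro i j hij
        have h1 := Subtype.mk.inj hij
        exact (Prod.mk.inj (Sum.inl_injective h1)).2, by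
        rintro ⟨h, hh⟩
        obtain ⟨i, rfl⟩ := vt_eq_inl hh
        exact ⟨i, rfl⟩⟩).symm
  rw [Nat.card_congr e, Nat.card_eq_fintype_card, Fintype.card_fin]

theorem card_fib_inr (w : Fin N) : Nat.card {h : HH r N // vt h = Sum.inr w} = 2 := by
  have e : {h : HH r N // vt h = Sum.inr w} ≃ Bool :=
    (Equiv.ofBijective (fun i : Bool => (⟨Sum.inr (w, i), rfl⟩ : {h : HH r N // vt h = Sum.inr w}))
      ⟨by
        intro i j hij
        have h1 := Subtype.mk.inj hij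
        exact (Prod.mk.inj (Sum.inr_injective h1)).2, by
        rintro ⟨h, hh⟩
        obtain ⟨i, rfl⟩ := vt_eq_inr hh
        exact ⟨i, rfl⟩⟩).symm
  rw [Nat.card_congr e, Nat.card_eq_fintype_card, Fintype.card_bool]

theorem Good.dg_eq (g : Good τ) (v : VV r N) : dg (Gr τ) v = Nat.card {h : HH r N // vt h = v} := by
  symm
  apply Nat.card_congr
  refine Equiv.ofBijective (fun h => ⟨vt (τ h.1), ?_⟩) ⟨?_, ?_⟩
  · exact (g.adj _ _).2 ⟨h.1, h.2, rfl⟩
  · rintro ⟨h, hh⟩ ⟨h', hh'⟩ e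
    have e1 : vt (τ h) = vt (τ h') := Subtype.mk.inj e
    exact Subtype.ext (g.inj (hh.trans hh'.symm) e1)
  · rintro ⟨b, hb⟩
    obtain ⟨h, h1, h2⟩ := (g.adj v b).1 hb
    exact ⟨⟨h, h1⟩, Subtype.ext h2⟩

theorem exists_dart (v : VV r N) : ∃ h : HH r N, vt h = v := by
  rcases v with v | w
  · exact ⟨Sum.inl (v, 0), rfl⟩
  · exact ⟨Sum.inr (w, false), rfl⟩

theorem Good.conn (g : Good τ) (hne : Nonempty (VV r N))
    (hP : ∀ P : HH r N → Prop, (∀ h, P h → P (τ h)) → (∀ h h', vt h = vt h' → P h → P h') →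
      (∃ h, P h) → ∀ h, P h) : (Gr τ).Connected := by
  refine @SimpleGraph.Connected.mk _ _ ?_ hne
  intro a b
  obtain ⟨ha, rfl⟩ := exists_dart a
  obtain ⟨hb, rfl⟩ := exists_dart b
  apply hP (fun h => (Gr τ).Reachable (vt ha) (vt h))
  · intro h hh
    exact hh.trans ((g.adj _ _).2 ⟨h, rfl, rfl⟩ : (Gr τ).Adj (vt h) (vt (τ h))).reachable
  · intro h h' e hh
    rw [← e]; exact hh
  · exact ⟨ha, SimpleGraph.Reachable.refl _⟩

end good

section orbits

variable {A B : Type}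

theorem zpow_conj (e : A ≃ B) (π : Equiv.Perm A) (π' : Equiv.Perm B) (h : ∀ a, e (π a) = π' (e a))
    (n : ℤ) (a : A) : (π' ^ n) (e a) = e ((π ^ n) a) := by
  have h1 : π' = e.permCongrHom π := by
    ext b
    change π' b = e (π (e.symm b))
    rw [h, e.apply_symm_apply]
  rw [h1, ← map_zpow]
  change e ((π ^ n) (e.symm (e a))) = _
  rw [e.symm_apply_apply]

theorem sameCycle_conj' (e : A ≃ B) (π : Equiv.Perm A) (π' : Equiv.Perm B)
    (h : ∀ a, e (π a) = π' (e a)) (a b : A) : π.SameCycle a b ↔ π'.SameCycle (e a) (e b) := by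
  constructor
  · rintro ⟨n, hn⟩
    exact ⟨n, by rw [zpow_conj e π π' h, hn]⟩
  · rintro ⟨n, hn⟩
    rw [zpow_conj e π π' h] at hn
    exact ⟨n, e.injective hn⟩

theorem orb_conj (e : A ≃ B) (π : Equiv.Perm A) (π' : Equiv.Perm B)
    (h : ∀ a, e (π a) = π' (e a)) : orb π = orb π' := by
  apply Nat.card_congr
  exact Quotient.congr e (fun a b => sameCycle_conj' e π π' h a b)

theorem sumCongr_zpow_inl (σ : Equiv.Perm A) (σ' : Equiv.Perm B) (n : ℤ) (a : A) :
    ((Equiv.sumCongr σ σ' : Equiv.Perm (A ⊕ B)) ^ n) (Sum.inl a) = Sum.inl ((σ ^ n) a) := by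
  have h1 : (Equiv.sumCongr σ σ' : Equiv.Perm (A ⊕ B)) = Equiv.Perm.sumCongrHom A B (σ, σ') := rfl
  rw [h1, ← map_zpow]
  rfl

theorem zpow_fix (π : Equiv.Perm A) {a : A} (h : π a = a) (n : ℤ) : (π ^ n) a = a :=
  Function.IsFixedPt.perm_zpow h n

end orbits

section rot

variable {r N : ℕ} {τ : Equiv.Perm (HH r N)}

/-- a rotation system read on the darts -/
noncomputable def Good.pi (g : Good τ) (σ' : Equiv.Perm (Gr τ).Dart) : Equiv.Perm (HH r N) :=
  (g.E.trans σ').trans g.E.symm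

theorem Good.E_pi (g : Good τ) (σ' : Equiv.Perm (Gr τ).Dart) (h : HH r N) :
    g.E (g.pi σ' h) = σ' (g.E h) := by
  change g.E (g.E.symm (σ' (g.E h))) = _
  rw [Equiv.apply_symm_apply]

theorem Good.orb_le (g : Good τ) {b : ℕ}
    (hb : ∀ σ : Equiv.Perm (KX r), RotX σ → orb (Equiv.sumCongr σ
      (Equiv.prodCongr (Equiv.refl (Fin N)) (Equiv.swap false true)) * τ) ≤ b)
    (σ' : Equiv.Perm (Gr τ).Dart) (hσ : IsRot (Gr τ) σ') : orb (σ' * rev (Gr τ)) ≤ b := by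
  have hvt : ∀ h, vt (g.pi σ' h) = vt h := by
    intro h
    rw [← g.E_fst, g.E_pi, hσ.src, g.E_fst]
  have hcyc : ∀ h h', vt h = vt h' → (g.pi σ').SameCycle h h' := by
    intro h h' e
    rw [sameCycle_conj' g.E (g.pi σ') σ' (g.E_pi σ')]
    exact hσ.cyc _ _ e
  have hmaps : Set.MapsTo (g.pi σ') (Set.range Sum.inl) (Set.range Sum.inl) := by
    rintro _ ⟨x, rfl⟩
    obtain ⟨i, hi⟩ := vt_eq_inl (hvt (Sum.inl x))
    exact ⟨_, hi.symm⟩
  obtain ⟨⟨σ1, σ2⟩, h12⟩ := Equiv.Perm.mem_sumCongrHom_range_of_perm_mapsTo_inl hmaps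
  have h12' : (Equiv.sumCongr σ1 σ2 : Equiv.Perm (HH r N)) = g.pi σ' := h12
  have hr : RotX σ1 := by
    constructor
    · intro x
      have h1 := hvt (Sum.inl x)
      rw [← h12'] at h1
      exact Sum.inl_injective h1
    · intro x y hxy
      obtain ⟨n, hn⟩ := hcyc (Sum.inl x) (Sum.inl y) (congrArg Sum.inl hxy)
      rw [← h12', sumCongr_zpow_inl] at hn
      exact ⟨n, Sum.inl_injective hn⟩
  have h2 : σ2 = Equiv.prodCongr (Equiv.refl (Fin N)) (Equiv.swap false true) := by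
    ext1 ⟨w, b⟩
    have h1 := hvt (Sum.inr (w, b))
    obtain ⟨b', hb'⟩ := vt_eq_inr h1
    have hne : b' ≠ b := by
      rintro rfl
      obtain ⟨n, hn⟩ := hcyc (Sum.inr (w, b')) (Sum.inr (w, !b')) rfl
      rw [zpow_fix _ hb'] at hn
      have h4 := (Prod.mk.inj (Sum.inr_injective hn)).2
      cases b' <;> simp at h4
    have h3 := bool_of_ne hne
    subst h3
    rw [← h12'] at hb'
    have h5 : σ2 (w, b) = (w, !b) := Sum.inr_injective hb'
    rw [h5]
    cases b <;> simp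
  have h3 := hb σ1 hr
  rw [← h2] at h3
  have h4 : orb (Equiv.sumCongr σ1 σ2 * τ) = orb (σ' * rev (Gr τ)) := by
    apply orb_conj g.E
    intro h
    rw [Equiv.Perm.mul_apply, Equiv.Perm.mul_apply, h12', g.E_pi, g.E_rev]
  rw [← h4]
  exact h3

end rot

section count

variable {r N : ℕ}

/-- darts as pairs of vertices -/
noncomputable def Kk {τ : Equiv.Perm (HH r N)} (g : Good τ) (Γ : SimpleGraph (VV r N))
    (e : Gr τ = Γ) : HH r N ≃ {p : VV r N × VV r N // Γ.Adj p.1 p.2} :=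
  Equiv.ofBijective (fun h => ⟨(vt h, vt (τ h)), by rw [← e]; exact (g.adj _ _).2 ⟨h, rfl, rfl⟩⟩) (by
    constructor
    · intro h h' hh
      have e1 := Subtype.mk.inj hh
      exact g.inj (congrArg Prod.fst e1) (congrArg Prod.snd e1)
    · rintro ⟨⟨a, b⟩, hab⟩
      rw [← e] at hab
      obtain ⟨h, rfl, rfl⟩ := (g.adj a b).1 hab
      exact ⟨h, rfl⟩)

theorem Kk_apply {τ : Equiv.Perm (HH r N)} (g : Good τ) (Γ : SimpleGraph (VV r N))
    (e : Gr τ = Γ) (h : HH r N) : (Kk g Γ e h).1 = (vt h, vt (τ h)) := rfl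

theorem eq_of_Kk {τ τ' : Equiv.Perm (HH r N)} (g : Good τ) (g' : Good τ')
    (Γ : SimpleGraph (VV r N)) (e : Gr τ = Γ) (e' : Gr τ' = Γ) (h : Kk g Γ e = Kk g' Γ e') :
    τ = τ' := by
  ext1 x
  have h1 : vt (τ x) = vt (τ' x) := by
    have h2 := congrArg (fun k => (k x).1.2) h
    exact h2
  apply (Kk g Γ e).injective
  conv_rhs => rw [h]
  apply Subtype.ext
  rw [Kk_apply, Kk_apply, g.inv, g'.inv, h1]

theorem card_stab : Nat.card {π : Equiv.Perm (HH r N) // vt ∘ π = vt} =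
    6 ^ (2 * r) * 2 ^ N := by
  classical
  rw [Nat.card_eq_fintype_card, DomMulAct.stabilizer_card, Fintype.prod_sum_type]
  congr 1
  · have h1 : ∀ v : Fin (2 * r), (Fintype.card {h : HH r N // vt h = Sum.inl v}).factorial = 6 := by
      intro v
      rw [← Nat.card_eq_fintype_card, card_fib_inl]; rfl
    rw [Finset.prod_congr rfl (fun v _ => h1 v), Finset.prod_const, Finset.card_univ,
      Fintype.card_fin]
  · have h1 : ∀ w : Fin N, (Fintype.card {h : HH r N // vt h = Sum.inr w}).factorial = 2 := by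
      intro v
      rw [← Nat.card_eq_fintype_card, card_fib_inr]; rfl
    rw [Finset.prod_congr rfl (fun v _ => h1 v), Finset.prod_const, Finset.card_univ,
      Fintype.card_fin]

theorem card_fiber (S : Set (Equiv.Perm (HH r N))) (hS : ∀ τ ∈ S, Good τ)
    (Γ : SimpleGraph (VV r N)) : Nat.card {τ : S // Gr τ.1 = Γ} ≤ 6 ^ (2 * r) * 2 ^ N := by
  classical
  rcases isEmpty_or_nonempty {τ : S // Gr τ.1 = Γ} with h | ⟨⟨τ0, e0⟩⟩
  · rw [Nat.card_of_isEmpty]
    exact Nat.zero_le _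
  · rw [← card_stab]
    apply Nat.card_le_card_of_injective (fun τ : {τ : S // Gr τ.1 = Γ} =>
      (⟨(Kk (hS τ.1.1 τ.1.2) Γ τ.2).trans (Kk (hS τ0.1 τ0.2) Γ e0).symm, by
        funext h
        have h1 : Kk (hS τ0.1 τ0.2) Γ e0 (((Kk (hS τ.1.1 τ.1.2) Γ τ.2).trans
            (Kk (hS τ0.1 τ0.2) Γ e0).symm) h) = Kk (hS τ.1.1 τ.1.2) Γ τ.2 h := by
          rw [Equiv.trans_apply, Equiv.apply_symm_apply]
        have h2 := congrArg (fun p => p.1.1) h1
        exact h2⟩ : {π : Equiv.Perm (HH r N) // vt ∘ π = vt}))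
    rintro ⟨⟨τ, hτ⟩, e⟩ ⟨⟨τ', hτ'⟩, e'⟩ hh
    have h1 := Subtype.mk.inj hh
    have h2 : Kk (hS τ hτ) Γ e = Kk (hS τ' hτ') Γ e' := by
      ext1 x
      have h3 := congrArg (fun k : Equiv.Perm (HH r N) => k x) h1
      exact (Kk (hS τ0.1 τ0.2) Γ e0).symm.injective h3
    have h3 := eq_of_Kk (hS τ hτ) (hS τ' hτ') Γ e e' h2
    subst h3
    rfl

end count

/-- PACKET GRF, with the necessary hypothesis that there is a vertex -/
theorem goalGRF : ∀ (r N b : ℕ), 0 < r + N → ∀ (S : Set (Equiv.Perm (KX r ⊕ Fin N × Bool))),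
    (∀ τ ∈ S, IsPair τ ∧ NoPure τ ∧ ¬ Short τ ∧
      (∀ σ : Equiv.Perm (KX r), RotX σ → orb (Equiv.sumCongr σ
        (Equiv.prodCongr (Equiv.refl (Fin N)) (Equiv.swap false true)) * τ) ≤ b) ∧
      ∀ P : KX r ⊕ Fin N × Bool → Prop, (∀ h, P h → P (τ h)) →
        (∀ h h', vt h = vt h' → P h → P h') → (∃ h, P h) → ∀ h, P h) →
    Nat.card S ≤ 6 ^ (2 * r) * 2 ^ N * Nat.card {Γ : SimpleGraph (Fin (2 * r) ⊕ Fin N) //
      Γ.Connected ∧ (∀ v, dg Γ (Sum.inl v) = 3) ∧ (∀ w, dg Γ (Sum.inr w) = 2) ∧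
      ∀ σ, IsRot Γ σ → orb (σ * rev Γ) ≤ b} := by
  classical
  intro r N b hrN S hS
  have hne : Nonempty (VV r N) := by
    rcases Nat.eq_zero_or_pos r with h | h
    · exact ⟨Sum.inr ⟨0, by omega⟩⟩
    · exact ⟨Sum.inl ⟨0, by omega⟩⟩
  have hG : ∀ τ ∈ S, Good τ := fun τ hτ => ⟨(hS τ hτ).1, (hS τ hτ).2.1, (hS τ hτ).2.2.1⟩
  let Q : SimpleGraph (VV r N) → Prop := fun Γ => Γ.Connected ∧
    (∀ v, dg Γ (Sum.inl v) = 3) ∧ (∀ w, dg Γ (Sum.inr w) = 2) ∧
      ∀ σ, IsRot Γ σ → orb (σ * rev Γ) ≤ b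
  have hQ : ∀ τ ∈ S, Q (Gr τ) := by
    intro τ hτ
    refine ⟨(hG τ hτ).conn hne (hS τ hτ).2.2.2.2, ?_, ?_, ?_⟩
    · intro v
      rw [(hG τ hτ).dg_eq, card_fib_inl]
    · intro w
      rw [(hG τ hτ).dg_eq, card_fib_inr]
    · exact (hG τ hτ).orb_le (hS τ hτ).2.2.2.1
  let F : S → {Γ : SimpleGraph (VV r N) // Q Γ} := fun τ => ⟨Gr τ.1, hQ τ.1 τ.2⟩
  have h1 : Nat.card S = ∑ Γ : {Γ : SimpleGraph (VV r N) // Q Γ}, Nat.card {τ : S // F τ = Γ} := by
    rw [← Nat.card_sigma]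
    exact (Nat.card_congr (Equiv.sigmaFiberEquiv F)).symm
  rw [h1]
  have h2 : ∀ Γ : {Γ : SimpleGraph (VV r N) // Q Γ}, Nat.card {τ : S // F τ = Γ} ≤
      6 ^ (2 * r) * 2 ^ N := by
    intro Γ
    refine le_trans (le_of_eq ?_) (card_fiber S hG Γ.1)
    apply Nat.card_congr
    exact Equiv.subtypeEquivRight (fun τ => Subtype.ext_iff)
  refine (Finset.sum_le_card_nsmul _ _ _ (fun Γ _ => h2 Γ)).trans (le_of_eq ?_)
  rw [Finset.card_univ, smul_eq_mul, mul_comm, ← Nat.card_eq_fintype_card]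

end Pool.Agent.Helper33.AF
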